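import Pool.Agent.Lib.MP_ca0971_gt.OT.Lnk.Def
import Pool.Agent.Lib.MP_ca0971_gt.OT.Loc.Norm

/-!
# Project OT, Fr: the front bound

Gauge h_i = - turn (d_i) for right-directed edges, - turn (- d_i) for left-directed ones (both in
(-1/4, 1/4)). Then th_i + h_(σ i) - h_i = 0 at a vertex without change of the X-direction and ± 1/2 at
an X-extremum; b + h_j - h_i = 0 at a crossing of two edges with the same X-direction, and, because the over
edge has the smaller slope (Frt.ord), = - 1/2 at a crossing of two edges with opposite X-directions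
(right over left: angles α < β in (-1/4, 1/4), turn (d_j / d_i) = β - α - 1/2).
The number of X-minima is the number of X-maxima (sum over i of sign (re d_(σ i)) - sign (re d_i) = 0), so
the sum of |th + ...| is (1/2) (2 cus) = cus.
-/

set_option autoImplicit false

namespace Pool.Agent.Lib.MP_ca0971_gt.OT

open Finset Filter Topology


variable {I : Type} [Fintype I] [DecidableEq I] {σ : Equiv.Perm I}

/-- Angle of a right-directed vector. -/
theorem turn_right {z : ℂ} (h : 0 < z.re) : -(1 / 4) < turn z ∧ turn z < 1 / 4 := by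
  have h1 := abs_lt.1 (Complex.abs_arg_lt_pi_div_two_iff.2 (Or.inl h))
  have hp : (0 : ℝ) < 2 * Real.pi := by positivity
  unfold turn
  rw [lt_div_iff₀ hp, div_lt_iff₀ hp]
  constructor <;> linarith [h1.1, h1.2]

/-- Angle of the opposite vector. -/
theorem turn_opposite {w : ℂ} (hw : w ≠ 0) : ∃ n : ℤ, turn (-w) = turn w + 1 / 2 + n := by
  obtain ⟨n, hn⟩ := turn_add (x := 1) (y := w) (z := -w) one_ne_zero hw (neg_ne_zero.2 hw)
  refine ⟨n, ?_⟩
  have h1 : turn (-1 : ℂ) = 1 / 2 := by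
    unfold turn
    rw [Complex.arg_neg_one]
    have := Real.pi_ne_zero
    field_simp
  rw [div_one, div_one, neg_div, div_self hw, h1] at hn
  exact hn

/-- Angles of right-directed vectors. -/
theorem turn_rr {x y : ℂ} (hx : 0 < x.re) (hy : 0 < y.re) : turn (y / x) = turn y - turn x := by
  have hx0 : x ≠ 0 := by
    rintro rfl
    simp at hx
  have hy0 : y ≠ 0 := by
    rintro rfl
    simp at hy
  obtain ⟨n, hn⟩ := turn_add (x := 1) (y := x) (z := y) one_ne_zero hx0 hy0
  rw [div_one, div_one] at hn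
  have h1 := turn_right hx
  have h2 := turn_right hy
  have h3 := turn_mem (y / x)
  have h4 : (-1 : ℝ) < n := by linarith [h1.1, h1.2, h2.1, h2.2, h3.1, h3.2]
  have h5 : (n : ℝ) < 1 := by linarith [h1.1, h1.2, h2.1, h2.2, h3.1, h3.2]
  have h6 : (-1 : ℤ) < n := by exact_mod_cast h4
  have h7 : n < 1 := by exact_mod_cast h5
  have h8 : n = 0 := by omega
  rw [h8] at hn
  push_cast at hn
  linarith

/-- Right-directed representative of a direction. -/
noncomputable def rdir (z : ℂ) : ℂ := if 0 < z.re then z else -z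

theorem rdir_re {z : ℂ} (h : z.re ≠ 0) : 0 < (rdir z).re := by
  unfold rdir
  split_ifs with k
  · exact k
  · rw [Complex.neg_re]
    have : z.re < 0 := lt_of_le_of_ne (not_lt.1 k) h
    linarith

/-- Same X-direction. -/
theorem turn_ss {x y : ℂ} (h : 0 < x.re * y.re) :
    turn (y / x) = turn (rdir y) - turn (rdir x) := by
  rcases pos_and_pos_or_neg_and_neg_of_mul_pos h with ⟨h1, h2⟩ | ⟨h1, h2⟩
  · unfold rdir
    rw [if_pos h1, if_pos h2]
    exact turn_rr h1 h2
  · unfold rdir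
    rw [if_neg (not_lt.2 h1.le), if_neg (not_lt.2 h2.le), ← neg_div_neg_eq]
    refine turn_rr ?_ ?_
    · rw [Complex.neg_re]
      linarith
    · rw [Complex.neg_re]
      linarith

/-- Opposite X-directions. -/
theorem turn_os {x y : ℂ} (h : x.re * y.re < 0) :
    ∃ n : ℤ, turn (y / x) = turn (rdir y) - turn (rdir x) + 1 / 2 + n := by
  have hx : x.re ≠ 0 := by
    intro h0
    rw [h0, zero_mul] at h
    exact lt_irrefl _ h
  have hy : y.re ≠ 0 := by
    intro h0
    rw [h0, mul_zero] at h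
    exact lt_irrefl _ h
  have e : y / x = -(rdir y / rdir x) := by
    rcases mul_neg_iff.1 h with ⟨h1, h2⟩ | ⟨h1, h2⟩
    · unfold rdir
      rw [if_pos h1, if_neg (not_lt.2 h2.le), neg_div, neg_neg]
    · unfold rdir
      rw [if_neg (not_lt.2 h1.le), if_pos h2, div_neg, neg_neg]
  have h1 := rdir_re hx
  have h2 := rdir_re hy
  have hn : rdir y / rdir x ≠ 0 := by
    apply div_ne_zero
    · intro h0
      rw [h0] at h2
      simp at h2
    · intro h0
      rw [h0] at h1
      simp at h1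
  obtain ⟨n, hn⟩ := turn_opposite hn
  refine ⟨n, ?_⟩
  rw [e, hn, turn_rr h1 h2]

/-- At a crossing. -/
theorem gauge_b {x y : ℂ} (hx : x.re ≠ 0) (hy : y.re ≠ 0) (h : y.im / y.re - x.im / x.re > 0) :
    turn (y / x) + -turn (rdir y) - -turn (rdir x) ≤ 0 := by
  rcases lt_or_gt_of_ne (mul_ne_zero hx hy) with h1 | h1
  · have hd : dt x y < 0 := by
      have e : dt x y = x.re * y.re * (y.im / y.re - x.im / x.re) := by
        unfold dt
        field_simp
      rw [e]
      exact mul_neg_of_neg_of_pos h1 h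
    have hx0 : x ≠ 0 := by
      rintro rfl
      simp at hx
    have hy0 : y ≠ 0 := by
      rintro rfl
      simp at hy
    have h2 := (turn_sign hx0 hy0).2.1 hd
    obtain ⟨n, hn⟩ := turn_os h1
    have h3 := turn_right (rdir_re hx)
    have h4 := turn_right (rdir_re hy)
    have h5 : (n : ℝ) < 0 := by linarith [h3.1, h3.2, h4.1, h4.2]
    have h6 : n < 0 := by exact_mod_cast h5
    have h7 : n ≤ -1 := by omega
    have h8 : (n : ℝ) ≤ -1 := by exact_mod_cast h7
    rw [hn]
    linarith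
  · rw [turn_ss h1]
    linarith

/-- At a vertex. -/
theorem gauge_v {x y : ℂ} (hx : x.re ≠ 0) (hy : y.re ≠ 0) :
    |turn (y / x) + -turn (rdir y) - -turn (rdir x)| =
      (if x.re < 0 ∧ 0 < y.re then (1 : ℝ) else 0) -
        ((if 0 < y.re then 1 else -1) - (if 0 < x.re then 1 else -1)) / 4 := by
  have hos : x.re * y.re < 0 → |turn (y / x) + -turn (rdir y) - -turn (rdir x)| = 1 / 2 := by
    intro h1
    obtain ⟨n, hn⟩ := turn_os h1
    have h3 := turn_right (rdir_re hx)
    have h4 := turn_right (rdir_re hy)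
    have h5 := turn_mem (y / x)
    have h6 : (n : ℝ) < 1 := by linarith [h3.1, h3.2, h4.1, h4.2, h5.1, h5.2]
    have h7 : (-2 : ℝ) < n := by linarith [h3.1, h3.2, h4.1, h4.2, h5.1, h5.2]
    have h8 : n < 1 := by exact_mod_cast h6
    have h9 : (-2 : ℤ) < n := by exact_mod_cast h7
    have h10 : n = 0 ∨ n = -1 := by omega
    have e : turn (y / x) + -turn (rdir y) - -turn (rdir x) = 1 / 2 + n := by
      rw [hn]
      ring
    rw [e]
    rcases h10 with k | k
    · rw [k]
      norm_num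
    · rw [k]
      norm_num
  have hss : 0 < x.re * y.re → |turn (y / x) + -turn (rdir y) - -turn (rdir x)| = 0 := by
    intro h1
    rw [turn_ss h1, abs_eq_zero]
    ring
  rcases lt_or_gt_of_ne hx with h1 | h1 <;> rcases lt_or_gt_of_ne hy with h2 | h2
  · rw [hss (mul_pos_of_neg_of_neg h1 h2), if_neg (fun k => lt_asymm k.2 h2),
      if_neg (not_lt.2 h2.le), if_neg (not_lt.2 h1.le)]
    norm_num
  · rw [hos (mul_neg_of_neg_of_pos h1 h2), if_pos ⟨h1, h2⟩,
      if_pos h2, if_neg (not_lt.2 h1.le)]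
    norm_num
  · rw [hos (mul_neg_of_pos_of_neg h1 h2), if_neg (fun k => lt_asymm k.1 h1),
      if_neg (not_lt.2 h2.le), if_pos h1]
    norm_num
  · rw [hss (mul_pos h1 h2), if_neg (fun k => lt_asymm k.1 h1),
      if_pos h2, if_pos h1]
    norm_num

theorem gauge_th {v : I → E} (hG : Gen σ v) (hF : Frt σ v) :
    ∃ h : I → ℝ, (∀ i j, (i, j) ∈ (dia σ v).C → (dia σ v).b i j + h j - h i ≤ 0) ∧
      ∑ i, |(dia σ v).th i + h (σ i) - h i| ≤ cus σ v := by
  refine ⟨fun i => - turn (rdir (dd σ v i)), fun i j hij => ?_, ?_⟩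
  · have h' : Crs σ v i j ∧ ht σ v j i < ht σ v i j := by
      simpa [dia] using hij
    have ho := hF.ord i j h'.1 h'.2
    exact gauge_b (hF.nv i) (hF.nv j) (sub_pos.2 ho)
  · have e : ∀ i, |(dia σ v).th i + -turn (rdir (dd σ v (σ i))) - -turn (rdir (dd σ v i))| =
        (if (dd σ v i).re < 0 ∧ 0 < (dd σ v (σ i)).re then (1 : ℝ) else 0) -
        ((if 0 < (dd σ v (σ i)).re then 1 else -1) - (if 0 < (dd σ v i).re then 1 else -1)) / 4 :=
      fun i => gauge_v (hF.nv i) (hF.nv (σ i))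
    rw [Finset.sum_congr rfl (fun i _ => e i), Finset.sum_sub_distrib, ← Finset.sum_div,
      Finset.sum_sub_distrib,
      Equiv.sum_comp σ (fun i => if 0 < (dd σ v i).re then (1 : ℝ) else -1), sub_self, zero_div,
      sub_zero]
    unfold cus
    rw [Finset.card_filter]
    push_cast
    refine le_of_eq (Finset.sum_congr rfl fun i _ => ?_)
    split_ifs <;> rfl

/-- The quantum integer is at least its largest term. -/
theorem br_ge {N : ℕ} (hN : 1 ≤ N) : (2 : ℝ) ^ ((N : ℝ) - 1) ≤ br N := by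
  unfold br
  have h := Finset.single_le_sum (f := fun c : Fin N => (2 : ℝ) ^ kap N c)
    (fun c _ => (Real.rpow_pos_of_pos (by norm_num) _).le) (Finset.mem_univ (⟨0, hN⟩ : Fin N))
  refine le_trans (le_of_eq ?_) h
  congr 1
  unfold kap
  simp

/-- Exponentials beat powers. -/
theorem exp_beats {r C : ℝ} (hr : 1 < r) (K : ℕ) (h : ∀ N : ℕ, 1 ≤ N → r ^ N ≤ C * (N : ℝ) ^ K) :
    False := by
  have t := (tendsto_pow_const_div_const_pow_of_one_lt K hr).const_mul C
  rw [mul_zero] at t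
  have t1 := (t.eventually (gt_mem_nhds one_pos)).and (eventually_ge_atTop 1)
  obtain ⟨N, h1, h2⟩ := t1.exists
  have h3 := h N h2
  have h4 : 0 < r ^ N := pow_pos (by linarith) N
  rw [← mul_div_assoc, div_lt_one h4] at h1
  linarith

/-- From 2^(N w) br N = Z, br N ≥ 2^(N-1), |Z| ≤ 2^K N^K 2^((N-1) c) for all N ≥ 1 (Dia.Z_bound). -/
theorem w_le {v : I → E} (hG : Gen σ v) (hF : Frt σ v) (hZ : ∀ N : ℕ, Zh σ v N = br N) :
    (dia σ v).w ≤ cus σ v - 1 := by
  by_contra hcon
  rw [not_le] at hcon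
  obtain ⟨h, hb, hth⟩ := gauge_th hG hF
  obtain ⟨K, hK⟩ := Dia.Z_bound σ (dia σ v) (dia_ok hG) h (cus σ v) hb hth
  have h2 : (0 : ℝ) < 2 := by norm_num
  have hd : 0 < (dia σ v).w + 1 - cus σ v := by linarith
  refine exp_beats (r := (2 : ℝ) ^ ((dia σ v).w + 1 - cus σ v))
    (C := 2 ^ K * (2 : ℝ) ^ (1 - cus σ v)) (Real.one_lt_rpow (by norm_num) hd) K fun N hN => ?_
  have a1 := hK N hN
  have a2 := hZ N
  unfold Zh Dia.Zh at a2
  have a3 : (dia σ v).Z σ N = (2 : ℝ) ^ ((N : ℝ) * (dia σ v).w) * br N := by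
    rw [← a2, ← mul_assoc, ← Real.rpow_add h2, add_neg_cancel, Real.rpow_zero, one_mul]
  have a4 := br_ge hN
  have a5 : (0 : ℝ) < (2 : ℝ) ^ ((N : ℝ) * (dia σ v).w) := Real.rpow_pos_of_pos h2 _
  have a6 : (2 : ℝ) ^ ((N : ℝ) * (dia σ v).w) * (2 : ℝ) ^ ((N : ℝ) - 1) ≤
      2 ^ K * (N : ℝ) ^ K * (2 : ℝ) ^ (((N : ℝ) - 1) * cus σ v) := by
    refine le_trans (mul_le_mul_of_nonneg_left a4 a5.le) ?_
    rw [← a3]
    exact le_trans (le_abs_self _) a1
  have a7 : (0 : ℝ) < (2 : ℝ) ^ (1 - (N : ℝ) * cus σ v) := Real.rpow_pos_of_pos h2 _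
  have a8 := mul_le_mul_of_nonneg_right a6 a7.le
  have e1 : (2 : ℝ) ^ ((N : ℝ) * (dia σ v).w) * (2 : ℝ) ^ ((N : ℝ) - 1) *
      (2 : ℝ) ^ (1 - (N : ℝ) * cus σ v) = ((2 : ℝ) ^ ((dia σ v).w + 1 - cus σ v)) ^ N := by
    rw [← Real.rpow_add h2, ← Real.rpow_add h2, ← Real.rpow_natCast, ← Real.rpow_mul h2.le]
    congr 1
    ring
  have e2 : 2 ^ K * (N : ℝ) ^ K * (2 : ℝ) ^ (((N : ℝ) - 1) * cus σ v) *
      (2 : ℝ) ^ (1 - (N : ℝ) * cus σ v) = 2 ^ K * (2 : ℝ) ^ (1 - cus σ v) * (N : ℝ) ^ K := by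
    rw [mul_assoc, ← Real.rpow_add h2]
    have e3 : ((N : ℝ) - 1) * cus σ v + (1 - (N : ℝ) * cus σ v) = 1 - cus σ v := by ring
    rw [e3]
    ring
  rw [e1, e2] at a8
  exact a8

end Pool.Agent.Lib.MP_ca0971_gt.OT
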